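import Pool.Agent.Helper56.RC.StF

/-! # Project RC (MP_b21509_co): module VPRA -/

set_option autoImplicit false

open MeasureTheory Set Filter Metric

namespace Pool.Agent.Helper79.RC

open Helper56.RC

theorem cos_le (h : StTrg) (k A : ℤ) (hA : cT k = A) :
    |Real.cos (k * Real.pi / 120)| ≤ (|(A : ℝ)| + 10) / 10 ^ 6 := by
  have h1 := h k
  rw [hA] at h1
  have h2 : |Real.cos (k * Real.pi / 120)| ≤
      |Real.cos (k * Real.pi / 120) - (A : ℝ) / 10 ^ 6| + |(A : ℝ) / 10 ^ 6| := by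
    have := abs_add_le (Real.cos (k * Real.pi / 120) - (A : ℝ) / 10 ^ 6) ((A : ℝ) / 10 ^ 6)
    rwa [sub_add_cancel] at this
  have h3 : |(A : ℝ) / 10 ^ 6| = |(A : ℝ)| / 10 ^ 6 := by
    rw [abs_div, abs_of_pos (by positivity : (0 : ℝ) < 10 ^ 6)]
  rw [h3] at h2
  have h4 : (|(A : ℝ)| + 10) / 10 ^ 6 = |(A : ℝ)| / 10 ^ 6 + 1 / 10 ^ 5 := by ring
  rw [h4]
  linarith

theorem KKe (j : ℤ) : KK (-(Real.pi / 120)) (Real.pi / 20) j =
    Real.cos (((40 + 39 * j : ℤ) : ℝ) * Real.pi / 120) * (4 / (j : ℝ) *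
      Real.cos (((3 * j - 60 : ℤ) : ℝ) * Real.pi / 120)) := by
  unfold KK RR
  congr 1
  · congr 1
    push_cast
    ring
  · congr 1
    rw [← Real.cos_sub_pi_div_two]
    congr 1
    push_cast
    ring

theorem KKb (h : StTrg) (j : ℤ) (hj : j ≠ 0) (A B : ℤ) (hA : cT (40 + 39 * j) = A)
    (hB : cT (3 * j - 60) = B) : |KK (-(Real.pi / 120)) (Real.pi / 20) j| ≤
      (|(A : ℝ)| + 10) / 10 ^ 6 * (4 / |(j : ℝ)| * ((|(B : ℝ)| + 10) / 10 ^ 6)) := by
  rw [KKe, abs_mul, abs_mul, abs_div, abs_of_pos (by norm_num : (0 : ℝ) < 4)]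
  have h1 := cos_le h _ A hA
  have h2 := cos_le h _ B hB
  have h3 : (0 : ℝ) < |(j : ℝ)| := abs_pos.2 (by exact_mod_cast hj)
  gcongr

theorem KKc (d ρ : ℝ) (j : ℤ) (B : ℝ) (hB : 0 < B) (hj : B ≤ |(j : ℝ)|) :
    |KK d ρ j| ≤ 4 / B := by
  unfold KK RR
  rw [abs_mul, abs_mul, abs_div, abs_of_pos (by norm_num : (0 : ℝ) < 4)]
  have h1 := Real.abs_cos_le_one (Real.pi * (1 + j) / 3 + j * d)
  have h2 := Real.abs_sin_le_one (j * ρ / 2)
  have h3 : 4 / |(j : ℝ)| ≤ 4 / B := by gcongr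
  have h4 : (0 : ℝ) ≤ 4 / |(j : ℝ)| := by positivity
  calc |Real.cos (Real.pi * (1 + j) / 3 + j * d)| * (4 / |(j : ℝ)| * |Real.sin (j * ρ / 2)|)
      ≤ 1 * (4 / B * 1) := by gcongr
    _ = 4 / B := by ring

theorem vC_eq (θ : ℤ → ℝ) (d ρ : ℝ) (m : ℤ) (h1 : m ≠ -2) (h2 : m ≠ 4) : vC θ d ρ m =
    19 / 80 / θ m * (1 / 10 * |KK d ρ (2 * m - 9)| + 11 / 10 * |KK d ρ (2 * m - 3)|
      + 11 / 10 * |KK d ρ (2 * m + 3)| + 1 / 10 * |KK d ρ (2 * m + 9)|) := by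
  have e1 : (m - (m - 9)) ^ 2 ≠ 9 := by
    have : m - (m - 9) = 9 := by ring
    rw [this]; norm_num
  have e2 : (m - (m - 3)) ^ 2 = 9 := by ring
  have e3 : (m - (m + 3)) ^ 2 = 9 := by ring
  have e4 : (m - (m + 9)) ^ 2 ≠ 9 := by
    have : m - (m + 9) = -9 := by ring
    rw [this]; norm_num
  have f1 : m - 9 + m = 2 * m - 9 := by ring
  have f2 : m - 3 + m = 2 * m - 3 := by ring
  have f3 : m + 3 + m = 2 * m + 3 := by ring
  have f4 : m + 9 + m = 2 * m + 9 := by ring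
  simp only [vC, aK, wt, h1, h2, and_false, if_false, if_neg e1, if_pos e2, if_pos e3, if_neg e4,
    f1, f2, f3, f4]
  ring

theorem sgm_near (h : StTrg) (m A B : ℤ) (hA : cT (78 * m) = A) (hB : cT (6 * m) = B)
    (hA1 : |(A : ℝ)| ≤ 10 ^ 6) : |sgm (-(Real.pi / 120)) (Real.pi / 20) m -
      (1 / 2 - 1 / 2 * ((A : ℝ) / 10 ^ 6 * ((B : ℝ) / 10 ^ 6)))| ≤ 1 / 10 ^ 5 := by
  have h1 := h (78 * m)
  have h2 := h (6 * m)
  rw [hA] at h1
  rw [hB] at h2
  have e1 : Real.cos (2 * m * (Real.pi / 3 + -(Real.pi / 120))) =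
      Real.cos (((78 * m : ℤ) : ℝ) * Real.pi / 120) := by
    congr 1
    push_cast
    ring
  have e2 : Real.cos (m * (Real.pi / 20)) = Real.cos (((6 * m : ℤ) : ℝ) * Real.pi / 120) := by
    congr 1
    push_cast
    ring
  unfold sgm
  rw [e1, e2]
  set x := Real.cos (((78 * m : ℤ) : ℝ) * Real.pi / 120)
  set y := Real.cos (((6 * m : ℤ) : ℝ) * Real.pi / 120) with hy
  have hy1 : |y| ≤ 1 := Real.abs_cos_le_one _
  have h3 : |(A : ℝ) / 10 ^ 6| ≤ 1 := by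
    rw [abs_div, abs_of_pos (by positivity : (0 : ℝ) < 10 ^ 6), div_le_one (by positivity)]
    exact hA1
  have h4 : 1 / 2 - 1 / 2 * x * y - (1 / 2 - 1 / 2 * ((A : ℝ) / 10 ^ 6 * ((B : ℝ) / 10 ^ 6))) =
      -(1 / 2) * ((x - (A : ℝ) / 10 ^ 6) * y + (A : ℝ) / 10 ^ 6 * (y - (B : ℝ) / 10 ^ 6)) := by
    ring
  rw [h4, abs_mul, abs_neg, abs_of_pos (by norm_num : (0 : ℝ) < 1 / 2)]
  have h5 := abs_add_le ((x - (A : ℝ) / 10 ^ 6) * y) ((A : ℝ) / 10 ^ 6 * (y - (B : ℝ) / 10 ^ 6))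
  rw [abs_mul, abs_mul] at h5
  have h6 : |x - (A : ℝ) / 10 ^ 6| * |y| ≤ 1 / 10 ^ 5 * 1 := by gcongr
  have h7 : |(A : ℝ) / 10 ^ 6| * |y - (B : ℝ) / 10 ^ 6| ≤ 1 * (1 / 10 ^ 5) := by gcongr
  linarith

theorem kk_n25 (h : StTrg) : |KK (-(Real.pi / 120)) (Real.pi / 20) (-25)| ≤ 117277 / 10 ^ 6 := by
  refine (KKb h (-25) (by norm_num) 793353 (-923880) (by decide) (by decide)).trans ?_
  norm_num

theorem kk_n21 (h : StTrg) : |KK (-(Real.pi / 120)) (Real.pi / 20) (-21)| ≤ 4973 / 10 ^ 6 := by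
  refine (KKb h (-21) (by norm_num) 26177 (-996917) (by decide) (by decide)).trans ?_
  norm_num

theorem kk_n19 (h : StTrg) : |KK (-(Real.pi / 120)) (Real.pi / 20) (-19)| ≤ 184448 / 10 ^ 6 := by
  refine (KKb h (-19) (by norm_num) 878817 (-996917) (by decide) (by decide)).trans ?_
  norm_num

theorem kk_n17 (h : StTrg) : |KK (-(Real.pi / 120)) (Real.pi / 20) (-17)| ≤ 188559 / 10 ^ 6 := by
  refine (KKb h (-17) (by norm_num) (-824126) (-972370) (by decide) (by decide)).trans ?_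
  norm_num

theorem kk_n15 (h : StTrg) : |KK (-(Real.pi / 120)) (Real.pi / 20) (-15)| ≤ 32161 / 10 ^ 6 := by
  refine (KKb h (-15) (by norm_num) (-130526) (-923880) (by decide) (by decide)).trans ?_
  norm_num

theorem kk_n13 (h : StTrg) : |KK (-(Real.pi / 120)) (Real.pi / 20) (-13)| ≤ 247309 / 10 ^ 6 := by
  refine (KKb h (-13) (by norm_num) 942641 (-852640) (by decide) (by decide)).trans ?_
  norm_num

theorem kk_n11 (h : StTrg) : |KK (-(Real.pi / 120)) (Real.pi / 20) (-11)| ≤ 200580 / 10 ^ 6 := by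
  refine (KKb h (-11) (by norm_num) (-725374) (-760406) (by decide) (by decide)).trans ?_
  norm_num

theorem kk_n9 (h : StTrg) : |KK (-(Real.pi / 120)) (Real.pi / 20) (-9)| ≤ 81984 / 10 ^ 6 := by
  refine (KKb h (-9) (by norm_num) (-284015) (-649448) (by decide) (by decide)).trans ?_
  norm_num

theorem kk_n7 (h : StTrg) : |KK (-(Real.pi / 120)) (Real.pi / 20) (-7)| ≤ 293580 / 10 ^ 6 := by
  refine (KKb h (-7) (by norm_num) 983255 (-522499) (by decide) (by decide)).trans ?_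
  norm_num

theorem kk_n5 (h : StTrg) : |KK (-(Real.pi / 120)) (Real.pi / 20) (-5)| ≤ 186378 / 10 ^ 6 := by
  refine (KKb h (-5) (by norm_num) (-608761) (-382683) (by decide) (by decide)).trans ?_
  norm_num

theorem kk_n3 (h : StTrg) : |KK (-(Real.pi / 120)) (Real.pi / 20) (-3)| ≤ 134010 / 10 ^ 6 := by
  refine (KKb h (-3) (by norm_num) (-430511) (-233445) (by decide) (by decide)).trans ?_
  norm_num

theorem kk_p1 (h : StTrg) : |KK (-(Real.pi / 120)) (Real.pi / 20) 1| ≤ 149772 / 10 ^ 6 := by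
  refine (KKb h 1 (by norm_num) (-477159) 78459 (by decide) (by decide)).trans ?_
  norm_num

theorem kk_p3 (h : StTrg) : |KK (-(Real.pi / 120)) (Real.pi / 20) 3| ≤ 176311 / 10 ^ 6 := by
  refine (KKb h 3 (by norm_num) (-566406) 233445 (by decide) (by decide)).trans ?_
  norm_num

theorem kk_p7 (h : StTrg) : |KK (-(Real.pi / 120)) (Real.pi / 20) 7| ≤ 99670 / 10 ^ 6 := by
  refine (KKb h 7 (by norm_num) (-333807) 522499 (by decide) (by decide)).trans ?_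
  norm_num

theorem kk_p9 (h : StTrg) : |KK (-(Real.pi / 120)) (Real.pi / 20) 9| ≤ 198696 / 10 ^ 6 := by
  refine (KKb h 9 (by norm_num) (-688355) 649448 (by decide) (by decide)).trans ?_
  norm_num

theorem kk_p11 (h : StTrg) : |KK (-(Real.pi / 120)) (Real.pi / 20) 11| ≤ 265131 / 10 ^ 6 := by
  refine (KKb h 11 (by norm_num) 958820 760406 (by decide) (by decide)).trans ?_
  norm_num

theorem kk_p13 (h : StTrg) : |KK (-(Real.pi / 120)) (Real.pi / 20) 13| ≤ 47813 / 10 ^ 6 := by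
  refine (KKb h 13 (by norm_num) (-182236) 852640 (by decide) (by decide)).trans ?_
  norm_num

theorem kk_p15 (h : StTrg) : |KK (-(Real.pi / 120)) (Real.pi / 20) 15| ≤ 195462 / 10 ^ 6 := by
  refine (KKb h 15 (by norm_num) (-793353) 923880 (by decide) (by decide)).trans ?_
  norm_num

theorem kk_p17 (h : StTrg) : |KK (-(Real.pi / 120)) (Real.pi / 20) 17| ≤ 206510 / 10 ^ 6 := by
  refine (KKb h 17 (by norm_num) 902585 972370 (by decide) (by decide)).trans ?_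
  norm_num

theorem kk_p19 (h : StTrg) : |KK (-(Real.pi / 120)) (Real.pi / 20) 19| ≤ 5497 / 10 ^ 6 := by
  refine (KKb h 19 (by norm_num) (-26177) 996917 (by decide) (by decide)).trans ?_
  norm_num

theorem kk_p21 (h : StTrg) : |KK (-(Real.pi / 120)) (Real.pi / 20) 21| ≤ 166882 / 10 ^ 6 := by
  refine (KKb h 21 (by norm_num) (-878817) 996917 (by decide) (by decide)).trans ?_
  norm_num

theorem kk_p23 (h : StTrg) : |KK (-(Real.pi / 120)) (Real.pi / 20) 23| ≤ 139370 / 10 ^ 6 := by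
  refine (KKb h 23 (by norm_num) 824126 972370 (by decide) (by decide)).trans ?_
  norm_num

theorem kk_p25 (h : StTrg) : |KK (-(Real.pi / 120)) (Real.pi / 20) 25| ≤ 19297 / 10 ^ 6 := by
  refine (KKb h 25 (by norm_num) 130526 923880 (by decide) (by decide)).trans ?_
  norm_num

theorem kk_p29 (h : StTrg) : |KK (-(Real.pi / 120)) (Real.pi / 20) 29| ≤ 76082 / 10 ^ 6 := by
  refine (KKb h 29 (by norm_num) 725374 760406 (by decide) (by decide)).trans ?_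
  norm_num
theorem G0 : (8021 / 10000 : ℝ) ≤ (FSc (1 / 20) (33 / 200) - 1 / 20) * (47 / 100) := by
  unfold FSc
  have h1 : (1732 / 1000 : ℝ) ≤ Real.sqrt 3 := Real.le_sqrt_of_sq_le (by norm_num)
  linarith

theorem re_ge (v v' : ℂ) : -(‖v‖ * ‖v'‖) ≤ (v * v').re := by
  have h1 := Complex.abs_re_le_norm (v * v')
  rw [norm_mul] at h1
  exact (abs_le.1 h1).1

/-- the common end -/
theorem fin (G c1 c2 s1 s2 a b re C1 C2 S1 S2 E : ℝ) (hG : 8021 / 10000 ≤ G) (ha : 0 ≤ a)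
    (hb : 0 ≤ b) (hre : -(a * b) ≤ re) (h1 : c1 ≤ C1) (h2 : c2 ≤ C2) (h3 : S1 ≤ s1) (h4 : s2 ≤ S2)
    (hE : E + C1 * a ^ 2 + C2 * b ^ 2 ≤ 8021 / 10000 * (a ^ 2 + b ^ 2 - a * b) + S1 * a ^ 2 -
      S2 * b ^ 2) :
    E + c1 * a ^ 2 + c2 * b ^ 2 ≤ G * (a ^ 2 + b ^ 2 + re) + s1 * a ^ 2 - s2 * b ^ 2 := by
  have h5 : 0 ≤ a ^ 2 + b ^ 2 - a * b := by nlinarith [sq_nonneg (a - b), mul_nonneg ha hb]
  have h6 : 8021 / 10000 * (a ^ 2 + b ^ 2 - a * b) ≤ G * (a ^ 2 + b ^ 2 + re) := by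
    calc 8021 / 10000 * (a ^ 2 + b ^ 2 - a * b) ≤ G * (a ^ 2 + b ^ 2 - a * b) := by gcongr
      _ ≤ G * (a ^ 2 + b ^ 2 + re) := by
          have : 0 ≤ G := by linarith
          exact mul_le_mul_of_nonneg_left (by linarith) this
  have h7 : c1 * a ^ 2 ≤ C1 * a ^ 2 := by gcongr
  have h8 : c2 * b ^ 2 ≤ C2 * b ^ 2 := by gcongr
  have h9 : S1 * a ^ 2 ≤ s1 * a ^ 2 := by gcongr
  have h10 : s2 * b ^ 2 ≤ S2 * b ^ 2 := by gcongr
  linarith

theorem vC2 (h : StTrg) : vC thA (-(Real.pi / 120)) (Real.pi / 20) 2 ≤ 1415 / 10000 := by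
  rw [vC_eq _ _ _ 2 (by norm_num) (by norm_num)]
  have e : thA 2 = 1 / 2 := by norm_num [thA]
  rw [e]
  norm_num only
  linarith [kk_n5 h, kk_p1 h, kk_p7 h, kk_p13 h]

theorem vC0 (h : StTrg) : vC thA (-(Real.pi / 120)) (Real.pi / 20) 0 ≤ 351 / 1000 := by
  rw [vC_eq _ _ _ 0 (by norm_num) (by norm_num)]
  have e : thA 0 = 1 / 4 := by norm_num [thA]
  rw [e]
  norm_num only
  linarith [kk_n9 h, kk_n3 h, kk_p3 h, kk_p9 h]

theorem vC6 (h : StTrg) : vC thA (-(Real.pi / 120)) (Real.pi / 20) 6 ≤ 278 / 10000 := by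
  rw [vC_eq _ _ _ 6 (by norm_num) (by norm_num)]
  have e : thA 6 = 4 := by norm_num [thA]
  rw [e]
  norm_num only
  linarith [kk_p3 h, kk_p9 h, kk_p15 h, kk_p21 h]

theorem vCn4 (h : StTrg) : vC thA (-(Real.pi / 120)) (Real.pi / 20) (-4) ≤ 190 / 10000 := by
  rw [vC_eq _ _ _ (-4) (by norm_num) (by norm_num)]
  have e : thA (-4) = 23 / 4 := by norm_num [thA]
  rw [e]
  norm_num only
  linarith [kk_n17 h, kk_n11 h, kk_n5 h, kk_p1 h]

theorem vC8 (h : StTrg) : vC thA (-(Real.pi / 120)) (Real.pi / 20) 8 ≤ 112 / 10000 := by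
  rw [vC_eq _ _ _ 8 (by norm_num) (by norm_num)]
  have e : thA 8 = 3 / 2 := by norm_num [thA]
  rw [e]
  norm_num only
  linarith [kk_p7 h, kk_p13 h, kk_p19 h, kk_p25 h]

theorem vCn6 (h : StTrg) : vC thA (-(Real.pi / 120)) (Real.pi / 20) (-6) ≤ 221 / 10000 := by
  rw [vC_eq _ _ _ (-6) (by norm_num) (by norm_num)]
  have e : thA (-6) = 3 / 2 := by norm_num [thA]
  rw [e]
  norm_num only
  linarith [kk_n21 h, kk_n15 h, kk_n9 h, kk_n3 h]

theorem vC10 (h : StTrg) : vC thA (-(Real.pi / 120)) (Real.pi / 20) 10 ≤ 788 / 10000 := by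
  rw [vC_eq _ _ _ 10 (by norm_num) (by norm_num)]
  have e : thA 10 = 5 / 4 := by norm_num [thA]
  rw [e]
  norm_num only
  linarith [kk_p11 h, kk_p17 h, kk_p23 h, kk_p29 h]

theorem vCn8 (h : StTrg) : vC thA (-(Real.pi / 120)) (Real.pi / 20) (-8) ≤ 981 / 10000 := by
  rw [vC_eq _ _ _ (-8) (by norm_num) (by norm_num)]
  have e : thA (-8) = 5 / 4 := by norm_num [thA]
  rw [e]
  norm_num only
  linarith [kk_n25 h, kk_n19 h, kk_n13 h, kk_n7 h]

theorem sgm2 (h : StTrg) : (7794 / 10000 : ℝ) ≤ sgm (-(Real.pi / 120)) (Real.pi / 20) 2 := by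
  have := sgm_near h 2 (-587785) 951057 (by decide) (by decide) (by norm_num)
  have h1 := (abs_le.1 this).1
  norm_num at h1
  linarith

theorem sgm4 (h : StTrg) : sgm (-(Real.pi / 120)) (Real.pi / 20) 4 ≤ 62503 / 100000 := by
  have := sgm_near h 4 (-309017) 809017 (by decide) (by decide) (by norm_num)
  have h1 := (abs_le.1 this).2
  norm_num at h1
  linarith

theorem sgm6 (h : StTrg) : (2204 / 10000 : ℝ) ≤ sgm (-(Real.pi / 120)) (Real.pi / 20) 6 ∧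
    sgm (-(Real.pi / 120)) (Real.pi / 20) 6 ≤ 2206 / 10000 := by
  have := sgm_near h 6 951057 587785 (by decide) (by decide) (by norm_num)
  obtain ⟨h1, h2⟩ := abs_le.1 this
  norm_num at h1 h2
  constructor <;> linarith

theorem sgm8 (h : StTrg) : (62498 / 100000 : ℝ) ≤ sgm (-(Real.pi / 120)) (Real.pi / 20) 8 ∧
    sgm (-(Real.pi / 120)) (Real.pi / 20) 8 ≤ 62503 / 100000 := by
  have := sgm_near h 8 (-809017) 309017 (by decide) (by decide) (by norm_num)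
  obtain ⟨h1, h2⟩ := abs_le.1 this
  norm_num at h1 h2
  constructor <;> linarith

theorem sgm10 (h : StTrg) : (4999 / 10000 : ℝ) ≤ sgm (-(Real.pi / 120)) (Real.pi / 20) 10 := by
  have := sgm_near h 10 0 0 (by decide) (by decide) (by norm_num)
  have h1 := (abs_le.1 this).1
  norm_num at h1
  linarith

theorem sgm_nonneg (d ρ : ℝ) (m : ℤ) : 0 ≤ sgm d ρ m := by
  unfold sgm
  have h1 := Real.abs_cos_le_one (2 * m * (Real.pi / 3 + d))
  have h2 := Real.abs_cos_le_one (m * ρ)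
  have h3 : |Real.cos (2 * m * (Real.pi / 3 + d)) * Real.cos (m * ρ)| ≤ 1 * 1 := by
    rw [abs_mul]
    gcongr
  have := (abs_le.1 h3).2
  linarith

theorem sgm_le_one (d ρ : ℝ) (m : ℤ) : sgm d ρ m ≤ 1 := by
  unfold sgm
  have h1 := Real.abs_cos_le_one (2 * m * (Real.pi / 3 + d))
  have h2 := Real.abs_cos_le_one (m * ρ)
  have h3 : |Real.cos (2 * m * (Real.pi / 3 + d)) * Real.cos (m * ρ)| ≤ 1 * 1 := by
    rw [abs_mul]
    gcongr
  have := (abs_le.1 h3).1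
  linarith

theorem l8b (h : StTrg) : l8 (-(Real.pi / 120)) (Real.pi / 20) ≤ 947 / 100000 := by
  unfold l8
  have e1 : 8 * Real.pi / 3 + 7 * (-(Real.pi / 120)) = ((313 : ℤ) : ℝ) * Real.pi / 120 := by
    push_cast
    ring
  have e2 : Real.sin (7 * (Real.pi / 20) / 2) = Real.cos (((-39 : ℤ) : ℝ) * Real.pi / 120) := by
    rw [← Real.cos_sub_pi_div_two]
    congr 1
    push_cast
    ring
  rw [e1, e2, abs_mul, abs_mul, abs_of_pos (by norm_num : (0 : ℝ) < 4 / 7)]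
  have h1 := cos_le h 313 (-333807) (by decide)
  have h2 := cos_le h (-39) 522499 (by decide)
  have h3 : |Real.cos (((313 : ℤ) : ℝ) * Real.pi / 120)| * (4 / 7 *
      |Real.cos (((-39 : ℤ) : ℝ) * Real.pi / 120)|) ≤ (|((-333807 : ℤ) : ℝ)| + 10) / 10 ^ 6 *
        (4 / 7 * ((|((522499 : ℤ) : ℝ)| + 10) / 10 ^ 6)) := by
    gcongr
  norm_num at h3 ⊢
  linarith

theorem l10b (h : StTrg) : l10 (-(Real.pi / 120)) (Real.pi / 20) ≤ 1906 / 100000 := by
  unfold l10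
  have e1 : 10 * Real.pi / 3 + 11 * (-(Real.pi / 120)) = ((389 : ℤ) : ℝ) * Real.pi / 120 := by
    push_cast
    ring
  have e2 : Real.sin (11 * (Real.pi / 20) / 2) = Real.cos (((-27 : ℤ) : ℝ) * Real.pi / 120) := by
    rw [← Real.cos_sub_pi_div_two]
    congr 1
    push_cast
    ring
  rw [e1, e2, abs_mul, abs_mul, abs_of_pos (by norm_num : (0 : ℝ) < 4 / 11)]
  have h1 := cos_le h 389 (-725374) (by decide)
  have h2 := cos_le h (-27) 760406 (by decide)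
  have h3 : |Real.cos (((389 : ℤ) : ℝ) * Real.pi / 120)| * (4 / 11 *
      |Real.cos (((-27 : ℤ) : ℝ) * Real.pi / 120)|) ≤ (|((-725374 : ℤ) : ℝ)| + 10) / 10 ^ 6 *
        (4 / 11 * ((|((760406 : ℤ) : ℝ)| + 10) / 10 ^ 6)) := by
    gcongr
  norm_num at h3 ⊢
  linarith

theorem thA_big (m : ℤ) (h : m ≤ -10 ∨ 12 ≤ m) : thA m = 1 := by
  unfold thA
  rw [if_neg (by omega), if_neg (by omega), if_neg (by omega), if_neg (by omega),
    if_neg (by omega), if_neg (by omega), if_neg (by omega), if_neg (by omega),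
    if_neg (by omega), if_neg (by omega)]

theorem vC_big (d ρ : ℝ) (m : ℤ) (h : 12 ≤ m) : vC thA d ρ m ≤ 98 / 1000 := by
  rw [vC_eq _ _ _ m (by omega) (by omega), thA_big m (Or.inr h)]
  have hm : (12 : ℝ) ≤ m := by exact_mod_cast h
  have k1 := KKc d ρ (2 * m - 9) 15 (by norm_num) (by
    push_cast
    rw [le_abs]
    left
    linarith)
  have k2 := KKc d ρ (2 * m - 3) 21 (by norm_num) (by
    push_cast
    rw [le_abs]
    left
    linarith)
  have k3 := KKc d ρ (2 * m + 3) 27 (by norm_num) (by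
    push_cast
    rw [le_abs]
    left
    linarith)
  have k4 := KKc d ρ (2 * m + 9) 33 (by norm_num) (by
    push_cast
    rw [le_abs]
    left
    linarith)
  linarith

theorem vC_neg (d ρ : ℝ) (m : ℤ) (h : m ≤ -10) : vC thA d ρ m ≤ 119 / 1000 := by
  rw [vC_eq _ _ _ m (by omega) (by omega), thA_big m (Or.inl h)]
  have hm : (m : ℝ) ≤ -10 := by exact_mod_cast h
  have k1 := KKc d ρ (2 * m - 9) 29 (by norm_num) (by
    push_cast
    rw [le_abs]
    right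
    linarith)
  have k2 := KKc d ρ (2 * m - 3) 23 (by norm_num) (by
    push_cast
    rw [le_abs]
    right
    linarith)
  have k3 := KKc d ρ (2 * m + 3) 17 (by norm_num) (by
    push_cast
    rw [le_abs]
    right
    linarith)
  have k4 := KKc d ρ (2 * m + 9) 11 (by norm_num) (by
    push_cast
    rw [le_abs]
    right
    linarith)
  linarith

theorem hVPRA (h : StTrg) : StVprA := by
  intro k v v' hk
  have hv := norm_nonneg v
  have hv' := norm_nonneg v'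
  have hre := re_ge v v'
  obtain rfl | rfl | rfl | rfl | h5 : k = 0 ∨ k = 2 ∨ k = 3 ∨ k = 4 ∨ 5 ≤ k := by omega
  · rw [if_neg (by norm_num), if_pos rfl]
    refine (le_of_eq ?_).trans ((fin _ _ _ (19 / 20 * (4 * sgm (-(Real.pi / 120)) (Real.pi / 20)
      (2 * ((0 : ℕ) : ℤ) + 2) / (2 * ((0 : ℕ) : ℝ) + 2))) 0 ‖v‖ ‖v'‖ (v * v').re (1415 / 10000)
      (351 / 1000) 1 0 0 G0 hv hv' hre (vC2 h) (vC0 h) ?_ le_rfl ?_).trans (le_of_eq ?_))
    · norm_num
    · have := sgm2 h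
      norm_num
      linarith
    · nlinarith [sq_nonneg (‖v‖ - ‖v'‖), sq_nonneg (‖v‖ - ‖v'‖ / 2)]
    · ring
  · rw [if_neg (by norm_num), if_neg (by norm_num)]
    refine (le_of_eq ?_).trans ((fin _ _ _ (19 / 20 * (4 * sgm (-(Real.pi / 120)) (Real.pi / 20)
      (2 * ((2 : ℕ) : ℤ) + 2) / (2 * ((2 : ℕ) : ℝ) + 2))) (19 / 20 * (4 * sgm (-(Real.pi / 120))
      (Real.pi / 20) (2 * ((2 : ℕ) : ℤ)) / (2 * ((2 : ℕ) : ℝ)))) ‖v‖ ‖v'‖ (v * v').re (278 / 10000)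
      (190 / 10000) (1395 / 10000) (5938 / 10000) 0 G0 hv hv' hre (vC6 h) (vCn4 h) ?_ ?_ ?_).trans
        (le_of_eq ?_))
    · norm_num
    · have := (sgm6 h).1
      norm_num
      linarith
    · have := sgm4 h
      norm_num
      linarith
    · nlinarith [sq_nonneg (‖v‖ - 44 / 100 * ‖v'‖)]
    · ring
  · rw [if_neg (by norm_num), if_neg (by norm_num)]
    refine (le_of_eq ?_).trans ((fin _ _ _ (19 / 20 * (4 * sgm (-(Real.pi / 120)) (Real.pi / 20)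
      (2 * ((3 : ℕ) : ℤ) + 2) / (2 * ((3 : ℕ) : ℝ) + 2))) (19 / 20 * (4 * sgm (-(Real.pi / 120))
      (Real.pi / 20) (2 * ((3 : ℕ) : ℤ)) / (2 * ((3 : ℕ) : ℝ)))) ‖v‖ ‖v'‖ (v * v').re (112 / 10000)
      (221 / 10000) (29 / 100) (14 / 100) 0 G0 hv hv' hre (vC8 h) (vCn6 h) ?_ ?_ ?_).trans
        (le_of_eq ?_))
    · norm_num
    · have := (sgm8 h).1
      norm_num
      linarith
    · have := (sgm6 h).2
      norm_num
      linarith
    · nlinarith [sq_nonneg (‖v‖ - ‖v'‖)]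
    · ring
  · rw [if_pos rfl, if_neg (by norm_num)]
    have hl10 : l10 (-(Real.pi / 120)) (Real.pi / 20) * ‖v‖ ≤ 1906 / 100000 * ‖v‖ := by
      have := l10b h
      gcongr
    have hl8 : l8 (-(Real.pi / 120)) (Real.pi / 20) * ‖v'‖ ≤ 947 / 100000 * ‖v'‖ := by
      have := l8b h
      gcongr
    refine le_trans ?_ ((fin _ (vC thA (-(Real.pi / 120)) (Real.pi / 20) 10)
      (vC thA (-(Real.pi / 120)) (Real.pi / 20) (-8)) (19 / 20 * (4 * sgm (-(Real.pi / 120))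
      (Real.pi / 20) (2 * ((4 : ℕ) : ℤ) + 2) / (2 * ((4 : ℕ) : ℝ) + 2))) (19 / 20 * (4 *
      sgm (-(Real.pi / 120)) (Real.pi / 20) (2 * ((4 : ℕ) : ℤ)) / (2 * ((4 : ℕ) : ℝ)))) ‖v‖ ‖v'‖
      (v * v').re (788 / 10000) (981 / 10000) (1899 / 10000) (2970 / 10000)
      (1906 / 100000 * ‖v‖ + 947 / 100000 * ‖v'‖ - 1 / 1000) G0 hv hv' hre (vC10 h) (vCn8 h)
      ?_ ?_ ?_).trans (le_of_eq ?_))
    · norm_num
      linarith
    · have := sgm10 h
      norm_num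
      linarith
    · have := (sgm8 h).2
      norm_num
      linarith
    · nlinarith [sq_nonneg (‖v‖ - 27 / 1000), sq_nonneg (‖v'‖ - 39 / 1000),
        sq_nonneg (‖v‖ - ‖v'‖), sq_nonneg (‖v‖ - 2 / 3 * ‖v'‖ - 1 / 1000)]
    · ring
  · rw [if_neg (by omega), if_neg (by omega)]
    have hk5 : (5 : ℝ) ≤ k := by exact_mod_cast h5
    have hs1 := sgm_nonneg (-(Real.pi / 120)) (Real.pi / 20) (2 * (k : ℤ) + 2)
    have hs2 := sgm_nonneg (-(Real.pi / 120)) (Real.pi / 20) (2 * (k : ℤ))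
    have hs3 := sgm_le_one (-(Real.pi / 120)) (Real.pi / 20) (2 * (k : ℤ))
    refine (le_of_eq ?_).trans ((fin _ _ _ (19 / 20 * (4 * sgm (-(Real.pi / 120)) (Real.pi / 20)
      (2 * (k : ℤ) + 2) / (2 * (k : ℝ) + 2))) (19 / 20 * (4 * sgm (-(Real.pi / 120))
      (Real.pi / 20) (2 * (k : ℤ)) / (2 * (k : ℝ)))) ‖v‖ ‖v'‖ (v * v').re (98 / 1000)
      (119 / 1000) 0 (38 / 100) 0 G0 hv hv' hre (vC_big (-(Real.pi / 120))
      (Real.pi / 20) (2 * (k : ℤ) + 2) (by omega))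
      (vC_neg (-(Real.pi / 120)) (Real.pi / 20)
      (-(2 * (k : ℤ))) (by omega)) ?_ ?_ ?_).trans (le_of_eq ?_))
    · rw [zero_add]
    · positivity
    · have h6 : 4 * sgm (-(Real.pi / 120)) (Real.pi / 20) (2 * (k : ℤ)) / (2 * (k : ℝ)) ≤
          4 / 10 := by
        rw [div_le_div_iff₀ (by positivity) (by norm_num)]
        nlinarith
      linarith
    · nlinarith [sq_nonneg (‖v‖ - 65 / 100 * ‖v'‖)]
    · ring

end Pool.Agent.Helper79.RC
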